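import Pool.Agent.W133.DQ.StB

/-!
Project DQ: chains of displacements (S_CH0).
-/

set_option autoImplicit false

open scoped ContDiff
open Set Filter Topology

namespace Pool.Agent.W645.DQ

open Pool.Agent.W133.DQ

theorem nb_one_iff {u : P2 → ℝ} {b : ℝ} : NB 1 u b ↔ ∀ p, ‖fderiv ℝ u p‖ ≤ b := by
  unfold NB
  simp only [norm_iteratedFDeriv_one]

/-- the map `p ↦ (p.1 + v p, p.2)` -/
def gm (v : P2 → ℝ) (p : P2) : P2 := (p.1 + v p, p.2)

theorem star_def (u v : P2 → ℝ) (p : P2) : star u v p = v p + u (gm v p) := rfl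

theorem gm_smooth {v : P2 → ℝ} (hv : ContDiff ℝ ∞ v) : ContDiff ℝ ∞ (gm v) :=
  (contDiff_fst.add hv).prodMk contDiff_snd

theorem star_smooth {u v : P2 → ℝ} (hu : ContDiff ℝ ∞ u) (hv : ContDiff ℝ ∞ v) :
    ContDiff ℝ ∞ (star u v) := by
  have : star u v = fun p => v p + u (gm v p) := rfl
  rw [this]
  exact hv.add (hu.comp (gm_smooth hv))

theorem chain_smooth {w : ℕ → P2 → ℝ} (hw : ∀ i, ContDiff ℝ ∞ (w i)) (m : ℕ) :
    ContDiff ℝ ∞ (chain w m) := by
  induction m with
  | zero => exact contDiff_const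
  | succ m ih => exact star_smooth (hw m) ih

theorem gm_fderiv {v : P2 → ℝ} (hv : ContDiff ℝ ∞ v) (p : P2) :
    ‖fderiv ℝ (gm v) p‖ ≤ 1 + ‖fderiv ℝ v p‖ := by
  have hd : HasFDerivAt v (fderiv ℝ v p) p := ((hv.differentiable (by simp)) p).hasFDerivAt
  have h1 : HasFDerivAt (gm v) ((ContinuousLinearMap.fst ℝ ℝ ℝ + fderiv ℝ v p).prod
      (ContinuousLinearMap.snd ℝ ℝ ℝ)) p :=
    (hasFDerivAt_fst.add hd).prodMk hasFDerivAt_snd
  rw [h1.fderiv]
  refine ContinuousLinearMap.opNorm_le_bound _ (by positivity) fun x => ?_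
  rw [ContinuousLinearMap.prod_apply, Prod.norm_def]
  refine max_le ?_ ?_
  · have h2 : ‖x.1‖ ≤ ‖x‖ := norm_fst_le x
    have h3 := (fderiv ℝ v p).le_opNorm x
    change ‖x.1 + fderiv ℝ v p x‖ ≤ _
    refine (norm_add_le _ _).trans ?_
    linarith
  · have h2 : ‖x.2‖ ≤ ‖x‖ := norm_snd_le x
    have h3 : 0 ≤ ‖fderiv ℝ v p‖ * ‖x‖ := by positivity
    change ‖x.2‖ ≤ _
    linarith

theorem star_nb {u v : P2 → ℝ} (hu : ContDiff ℝ ∞ u) (hv : ContDiff ℝ ∞ v) {a b : ℝ}
    (ha : 0 ≤ a) (hua : NB 1 u a) (hvb : NB 1 v b) : NB 1 (star u v) (b + a * (1 + b)) := by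
  rw [nb_one_iff] at *
  intro p
  have hd : HasFDerivAt v (fderiv ℝ v p) p := ((hv.differentiable (by simp)) p).hasFDerivAt
  have hg : HasFDerivAt (gm v) (fderiv ℝ (gm v) p) p :=
    (((gm_smooth hv).differentiable (by simp)) p).hasFDerivAt
  have hu1 : HasFDerivAt u (fderiv ℝ u (gm v p)) (gm v p) :=
    ((hu.differentiable (by simp)) _).hasFDerivAt
  have h1 : HasFDerivAt (star u v) (fderiv ℝ v p + (fderiv ℝ u (gm v p)).comp
      (fderiv ℝ (gm v) p)) p := hd.add (hu1.comp p hg)
  rw [h1.fderiv]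
  refine (norm_add_le _ _).trans ?_
  have h2 := ContinuousLinearMap.opNorm_comp_le (fderiv ℝ u (gm v p)) (fderiv ℝ (gm v) p)
  have h3 := gm_fderiv hv p
  have h4 : ‖fderiv ℝ u (gm v p)‖ * ‖fderiv ℝ (gm v) p‖ ≤ a * (1 + b) :=
    mul_le_mul (hua _) (h3.trans (by linarith [hvb p])) (norm_nonneg _) ha
  linarith [hvb p]

theorem lip_of_nb {u : P2 → ℝ} (hu : ContDiff ℝ ∞ u) {a : ℝ} (h : NB 1 u a) (p q : P2) :
    |u p - u q| ≤ a * ‖p - q‖ := by
  rw [nb_one_iff] at h
  exact convex_univ.norm_image_sub_le_of_norm_fderiv_le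
    (fun x _ => (hu.differentiable (by simp)) x) (fun x _ => h x) (Set.mem_univ q) (Set.mem_univ p)

theorem star_sub {u v u' v' : P2 → ℝ} (hu : ContDiff ℝ ∞ u) {a d D : ℝ} (ha : 0 ≤ a)
    (hua : NB 1 u a) (hd : ∀ p, |u p - u' p| ≤ d) (hD : ∀ p, |v p - v' p| ≤ D) (p : P2) :
    |star u v p - star u' v' p| ≤ D + a * D + d := by
  rw [star_def, star_def]
  have h1 := lip_of_nb hu hua (gm v p) (gm v' p)
  have h2 : ‖gm v p - gm v' p‖ ≤ D := by
    unfold gm
    rw [Prod.mk_sub_mk, Prod.norm_def, sub_self, norm_zero, add_sub_add_left_eq_sub]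
    exact max_le (hD p) ((abs_nonneg _).trans (hD p))
  have h3 : a * ‖gm v p - gm v' p‖ ≤ a * D := mul_le_mul_of_nonneg_left h2 ha
  have h4 := hd (gm v' p)
  have h5 := hD p
  have h6 : v p + u (gm v p) - (v' p + u' (gm v' p)) =
      (v p - v' p) + ((u (gm v p) - u (gm v' p)) + (u (gm v' p) - u' (gm v' p))) := by ring
  rw [h6]
  refine (abs_add_le _ _).trans ?_
  have h7 := abs_add_le (u (gm v p) - u (gm v' p)) (u (gm v' p) - u' (gm v' p))
  linarith

theorem ch0 : S_CH0 := by
  intro M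
  have hδ : (0 : ℝ) < 1 / (2 * M + 1) := by positivity
  refine ⟨1 / (2 * M + 1), hδ, fun w w' hw hw' => ⟨chain_smooth hw M, ?_, ?_, ?_⟩⟩
  · intro e he
    have key : ∀ m, m ≤ M → ∀ p, |chain w m p| ≤ m * e := by
      intro m
      induction m with
      | zero =>
        intro _ p
        simp [chain]
      | succ m ih =>
        intro hm p
        have h1 := ih (by omega) p
        have h2 := he m (by omega) (gm (chain w m) p)
        change |chain w m p + w m (gm (chain w m) p)| ≤ _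
        refine (abs_add_le _ _).trans ?_
        push_cast
        linarith
    exact key M le_rfl
  · intro d hd0 hdδ hn
    have key : ∀ m, m ≤ M → NB 1 (chain w m) (2 * m * d) := by
      intro m
      induction m with
      | zero =>
        intro _ p
        have : chain w 0 = fun _ => (0 : ℝ) := rfl
        rw [norm_iteratedFDeriv_one, this]
        simp
      | succ m ih =>
        intro hm p
        have h1 := star_nb (hw m) (chain_smooth hw m) hd0 (hn m (by omega)) (ih (by omega)) p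
        refine h1.trans ?_
        push_cast
        have hm1 : (m : ℝ) ≤ M := by exact_mod_cast (by omega : m ≤ M)
        have hm0 : (0 : ℝ) ≤ m := Nat.cast_nonneg m
        have h2 : 2 * (m : ℝ) * d ≤ 1 := by
          have h3 : d * (2 * M + 1) ≤ 1 := by
            rwa [le_div_iff₀ (by positivity)] at hdδ
          nlinarith
        nlinarith
    exact key M le_rfl
  · intro hn hn' d hd
    have key : ∀ m, m ≤ M → ∀ p, |chain w m p - chain w' m p| ≤ 2 * m * d := by
      intro m
      induction m with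
      | zero =>
        intro _ p
        simp [chain]
      | succ m ih =>
        intro hm p
        have hd0 : 0 ≤ d := (abs_nonneg _).trans (hd m (by omega) p)
        have h1 := star_sub (v := chain w m) (v' := chain w' m) (hw m) hδ.le (hn m (by omega))
          (hd m (by omega)) (ih (by omega)) p
        refine h1.trans ?_
        push_cast
        have hm1 : (m : ℝ) ≤ M := by exact_mod_cast (by omega : m ≤ M)
        have hm0 : (0 : ℝ) ≤ m := Nat.cast_nonneg m
        have h2 : 1 / (2 * (M : ℝ) + 1) * (2 * m) ≤ 1 := by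
          rw [one_div_mul_eq_div, div_le_one (by positivity)]
          linarith
        have h3 : 1 / (2 * (M : ℝ) + 1) * (2 * m) * d ≤ 1 * d :=
          mul_le_mul_of_nonneg_right h2 hd0
        linarith
    exact key M le_rfl

end Pool.Agent.W645.DQ
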